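import Pool.Agent.J4.H17.ZC.Rep

/-!
# Functions on a product of symmetric groups whose symmetrizations over large sets vanish

The core lemma: an element `e` of the group ring of a product of symmetric groups which acts as
zero (with a twist by the signs) on a tensor product of tensor powers of spaces of the dimensions
`ν a` is orthogonal to all functions `φ` whose sums over the permutations of `ν a + 1` elements
(right cosets) vanish.
-/

set_option autoImplicit false

open Equiv Finset Pool.Agent.J4.H17.ZC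

namespace Pool.Agent.J4.H20.SM

/-- The product of the symmetric groups. -/
abbrev Gr {Λ : Type} (n : Λ → ℕ) : Type := ∀ a, Perm (Fin (n a))

/-- The sign of an element of the product of symmetric groups. -/
def sg {Λ : Type} [Fintype Λ] {n : Λ → ℕ} (π : Gr n) : ℤ := ∏ a, ((Perm.sign (π a) : ℤˣ) : ℤ)

/-- The element `∑ e(π) π` of the group ring of the product of the symmetric groups, twisted by the
signs, acts as zero on the tensor product of the tensor powers `(k ^ ν a) ^ (⊗ n a)`: its matrix
coefficients with respect to the tensor products `c`, `c'` of basis vectors are zero. -/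
def Kills {Λ : Type} [Fintype Λ] [DecidableEq Λ] {n : Λ → ℕ} (ν : Λ → ℕ) (e : Gr n → ℤ) : Prop :=
  ∀ c c' : ∀ a, Fin (n a) → Fin (ν a),
    ∑ π ∈ univ.filter (fun π : Gr n => ∀ a i, c a (π a i) = c' a i), sg π * e π = 0

section

variable {Λ : Type} [DecidableEq Λ] {n : Λ → ℕ}

/-- right translation by a permutation in the block `a` -/
noncomputable def rho (n : Λ → ℕ) (a : Λ) : Perm (Fin (n a)) →* Module.End ℚ (Gr n → ℚ) where
  toFun τ := LinearMap.funLeft ℚ ℚ (fun w : Gr n => w * Pi.mulSingle a τ)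
  map_one' := by
    refine LinearMap.ext fun f => funext fun w => ?_
    rw [LinearMap.funLeft_apply, Pi.mulSingle_one, mul_one]
    rfl
  map_mul' σ τ := by
    refine LinearMap.ext fun f => funext fun w => ?_
    rw [LinearMap.funLeft_apply, Module.End.mul_apply, LinearMap.funLeft_apply,
      LinearMap.funLeft_apply, Pi.mulSingle_mul, mul_assoc]

theorem rho_apply (a : Λ) (τ : Perm (Fin (n a))) (f : Gr n → ℚ) (w : Gr n) :
    rho n a τ f w = f (w * Pi.mulSingle a τ) := rfl

/-- the functions whose sums over the permutations of `ν a + 1` elements vanish -/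
def RelSub (n ν : Λ → ℕ) : Submodule ℚ (Gr n → ℚ) where
  carrier := {φ | ∀ (a : Λ) (T : Finset (Fin (n a))), T.card = ν a + 1 → ∀ u : Gr n,
    ∑ τ ∈ PT T, φ (u * Pi.mulSingle a τ) = 0}
  zero_mem' := fun a T _ u => Finset.sum_eq_zero fun _ _ => rfl
  add_mem' := fun {f g} hf hg a T hT u => by
    simp only [Pi.add_apply]
    rw [Finset.sum_add_distrib, hf a T hT u, hg a T hT u, add_zero]
  smul_mem' := fun r f hf a T hT u => by
    simp only [Pi.smul_apply, smul_eq_mul]
    rw [← Finset.mul_sum, hf a T hT u, mul_zero]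

theorem mem_RelSub {ν : Λ → ℕ} {φ : Gr n → ℚ} : φ ∈ RelSub n ν ↔
    ∀ (a : Λ) (T : Finset (Fin (n a))), T.card = ν a + 1 → ∀ u : Gr n,
      ∑ τ ∈ PT T, φ (u * Pi.mulSingle a τ) = 0 := Iff.rfl

theorem sum_PT_conj {X : Type} [Fintype X] [DecidableEq X] (T : Finset X) (v : Perm X)
    (F : Perm X → ℚ) :
    ∑ τ ∈ PT T, F (v⁻¹ * τ * v) = ∑ τ ∈ PT (T.image (v⁻¹ : Perm X)), F τ := by
  refine Finset.sum_nbij' (fun τ => v⁻¹ * τ * v) (fun τ => v * τ * v⁻¹) ?_ ?_ ?_ ?_ ?_
  · intro τ hτ
    rw [mem_PT] at hτ ⊢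
    intro x hx
    have h1 : v x ∉ T := by
      intro h
      exact hx (Finset.mem_image.2 ⟨v x, h, by simp⟩)
    rw [Perm.mul_apply, Perm.mul_apply, hτ _ h1]
    simp
  · intro τ hτ
    rw [mem_PT] at hτ ⊢
    intro x hx
    have h1 : v⁻¹ x ∉ T.image (v⁻¹ : Perm X) := by
      intro h
      obtain ⟨y, hy, hyx⟩ := Finset.mem_image.1 h
      exact hx (by rw [← (v⁻¹).injective hyx]; exact hy)
    rw [Perm.mul_apply, Perm.mul_apply, hτ _ h1]
    simp
  · intro τ _
    group
  · intro τ _
    group
  · intro τ _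
    rfl

theorem mulSingle_comm {a b : Λ} (h : a ≠ b) (σ : Perm (Fin (n a))) (τ : Perm (Fin (n b))) :
    (Pi.mulSingle a σ * Pi.mulSingle b τ : Gr n) = Pi.mulSingle b τ * Pi.mulSingle a σ := by
  funext c
  rw [Pi.mul_apply, Pi.mul_apply]
  by_cases h1 : c = a
  · subst h1
    rw [Pi.mulSingle_eq_of_ne h, mul_one, one_mul]
  · rw [Pi.mulSingle_eq_of_ne h1, mul_one, one_mul]

theorem rho_mem {ν : Λ → ℕ} {φ : Gr n → ℚ} (hφ : φ ∈ RelSub n ν) (a : Λ)
    (σ : Perm (Fin (n a))) : rho n a σ φ ∈ RelSub n ν := by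
  rw [mem_RelSub] at hφ ⊢
  intro b T hT u
  simp only [rho_apply]
  by_cases h : b = a
  · subst h
    have h1 := hφ b (T.image (σ⁻¹ : Perm (Fin (n b))))
      (by rw [Finset.card_image_of_injective _ (Equiv.injective _), hT]) (u * Pi.mulSingle b σ)
    have h2 := sum_PT_conj T σ fun τ => φ (u * Pi.mulSingle b σ * Pi.mulSingle b τ)
    rw [← h1, ← h2]
    refine Finset.sum_congr rfl fun τ _ => ?_
    congr 1
    rw [mul_assoc, mul_assoc, ← Pi.mulSingle_mul, ← Pi.mulSingle_mul]
    congr 2
    group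
  · have h1 := hφ b T hT (u * Pi.mulSingle a σ)
    rw [← h1]
    refine Finset.sum_congr rfl fun τ _ => ?_
    rw [mul_assoc, mul_assoc, mulSingle_comm h]

theorem rho_comm {a b : Λ} (h : a ≠ b) (σ : Perm (Fin (n a))) (τ : Perm (Fin (n b)))
    (f : Gr n → ℚ) : rho n a σ (rho n b τ f) = rho n b τ (rho n a σ f) := by
  funext w
  rw [rho_apply, rho_apply, rho_apply, rho_apply, mul_assoc, mul_assoc, mulSingle_comm h]

/-- A nonzero space of functions in `RelSub` which is stable under right translations contains a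
nonzero function which is alternating with respect to colourings of the blocks. -/
theorem exists_colorings [Fintype Λ] {ν : Λ → ℕ} (W : Submodule ℚ (Gr n → ℚ))
    (hW : W ≤ RelSub n ν)
    (hst : ∀ a (i j : Fin (n a)), ∀ v ∈ W, rho n a (swap i j) v ∈ W) (hne : ∃ v ∈ W, v ≠ 0) :
    ∀ S : Finset Λ, ∃ c : ∀ a, Fin (n a) → ℕ, (∀ a ∈ S, ∀ i, c a i < ν a) ∧
      ∃ v ∈ W, v ≠ 0 ∧ ∀ a ∈ S, ∀ i j, i ≠ j → c a i = c a j → rho n a (swap i j) v = -v := by
  classical
  intro S
  induction S using Finset.induction_on with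
  | empty =>
    obtain ⟨v, hv, hv0⟩ := hne
    exact ⟨fun _ _ => 0, by simp, v, hv, hv0, by simp⟩
  | insert a S haS ih =>
    obtain ⟨c, hc, v, hv, hv0, hcv⟩ := ih
    let W' : Submodule ℚ (Gr n → ℚ) :=
      { carrier := {f | f ∈ W ∧ ∀ b ∈ S, ∀ i j, i ≠ j → c b i = c b j →
          rho n b (swap i j) f = -f}
        zero_mem' := ⟨W.zero_mem, fun b _ i j _ _ => by rw [map_zero, neg_zero]⟩
        add_mem' := fun {f g} hf hg => ⟨W.add_mem hf.1 hg.1, fun b hb i j hij h => by
          rw [map_add, hf.2 b hb i j hij h, hg.2 b hb i j hij h]; abel⟩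
        smul_mem' := fun r f hf => ⟨W.smul_mem r hf.1, fun b hb i j hij h => by
          rw [map_smul, hf.2 b hb i j hij h, smul_neg]⟩ }
    have h1 := exists_coloring (rho n a) (ν a) Finset.univ W' (by
      intro i _ j _ f hf
      refine ⟨hst a i j f hf.1, ?_⟩
      intro b hb i' j' hij h
      have hab : b ≠ a := fun h' => haS (h' ▸ hb)
      rw [rho_comm hab, hf.2 b hb i' j' hij h, map_neg]) ⟨v, ⟨hv, hcv⟩, hv0⟩ (by
      intro T _ hT f hf hfix
      have hfR := hW hf.1
      rw [mem_RelSub] at hfR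
      have hinv : ∀ τ ∈ PT T, rho n a τ f = f := by
        intro τ hτ
        refine PT_induction (P := fun τ => rho n a τ f = f) ?_ ?_ hτ
        · rw [map_one, Module.End.one_apply]
        · intro i hi j hj τ h
          rw [map_mul, Module.End.mul_apply, h, hfix i hi j hj]
      funext u
      have h2 := hfR a T hT u
      have h3 : ∀ τ ∈ PT T, f (u * Pi.mulSingle a τ) = f u := by
        intro τ hτ
        have h4 := congrFun (hinv τ hτ) u
        rwa [rho_apply] at h4
      rw [Finset.sum_congr rfl h3, Finset.sum_const, nsmul_eq_mul] at h2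
      rcases mul_eq_zero.1 h2 with h4 | h4
      · exfalso
        have h5 : (PT T).card = 0 := by exact_mod_cast h4
        rw [Finset.card_eq_zero] at h5
        have h6 : (1 : Perm (Fin (n a))) ∈ PT T := by
          rw [mem_PT]; intro x _; rfl
        rw [h5] at h6
        simp at h6
      · exact h4)
    obtain ⟨ca, hca, f, hf, hf0, hfa⟩ := h1
    refine ⟨Function.update c a ca, ?_, f, hf.1, hf0, ?_⟩
    · intro b hb i
      by_cases hba : b = a
      · subst hba
        rw [Function.update_self]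
        exact hca i (Finset.mem_univ i)
      · rw [Function.update_of_ne hba]
        exact hc b ((Finset.mem_insert.1 hb).resolve_left hba) i
    · intro b hb i j hij h
      by_cases hba : b = a
      · subst hba
        rw [Function.update_self] at h
        exact hfa i (Finset.mem_univ i) j (Finset.mem_univ j) hij h
      · rw [Function.update_of_ne hba] at h
        exact hf.2 b ((Finset.mem_insert.1 hb).resolve_left hba) i j hij h

/-- A function which is alternating for the transpositions of elements of the same colour is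
alternating for all permutations which preserve the colours. -/
theorem alt_one {ψ : Gr n → ℚ} {a : Λ} {c : Fin (n a) → ℕ}
    (h : ∀ i j, i ≠ j → c i = c j → rho n a (swap i j) ψ = -ψ) :
    ∀ (m : ℕ) (τ : Perm (Fin (n a))), τ.support.card ≤ m → (∀ i, c (τ i) = c i) →
      rho n a τ ψ = (((Perm.sign τ : ℤˣ) : ℤ) : ℚ) • ψ := by
  intro m
  induction m with
  | zero =>
    intro τ hτ _
    have h1 : τ = 1 := by
      rw [← Perm.support_eq_empty_iff, ← Finset.card_eq_zero]
      omega
    rw [h1, map_one, Module.End.one_apply, Perm.sign_one]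
    simp
  | succ m ih =>
    intro τ hτ hc
    by_cases h1 : τ = 1
    · rw [h1, map_one, Module.End.one_apply, Perm.sign_one]
      simp
    · obtain ⟨i, hi⟩ : ∃ i, τ i ≠ i := by
        by_contra hcon
        push Not at hcon
        exact h1 (Perm.ext hcon)
      have h2 := Perm.card_support_swap_mul hi
      have h3 := ih (swap i (τ i) * τ) (by omega) (by
        intro j
        rw [Perm.mul_apply]
        by_cases hj1 : τ j = i
        · rw [hj1, swap_apply_left, hc, ← hj1, hc]
        · by_cases hj2 : τ j = τ i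
          · rw [hj2, swap_apply_right, τ.injective hj2]
          · rw [swap_apply_of_ne_of_ne hj1 hj2, hc])
      have h4 : τ = swap i (τ i) * (swap i (τ i) * τ) := by
        rw [swap_mul_self_mul]
      have h5 : rho n a τ ψ = rho n a (swap i (τ i)) (rho n a (swap i (τ i) * τ) ψ) := by
        rw [← Module.End.mul_apply, ← map_mul, ← h4]
      rw [h5, h3, map_smul, h i (τ i) (Ne.symm hi) (hc i).symm, Perm.sign_mul,
        Perm.sign_swap (Ne.symm hi)]
      simp

/-- the same for all blocks -/
theorem alt_all [Fintype Λ] {ψ : Gr n → ℚ} {c : ∀ a, Fin (n a) → ℕ}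
    (h : ∀ a i j, i ≠ j → c a i = c a j → rho n a (swap i j) ψ = -ψ) (w y : Gr n)
    (hy : ∀ a i, c a (y a i) = c a i) : ψ (w * y) = (sg y : ℚ) * ψ w := by
  classical
  have key : ∀ S : Finset Λ, ψ (w * fun a => if a ∈ S then y a else 1) =
      (∏ a ∈ S, (((Perm.sign (y a) : ℤˣ) : ℤ) : ℚ)) * ψ w := by
    intro S
    induction S using Finset.induction_on with
    | empty =>
      have h1 : (fun a => if a ∈ (∅ : Finset Λ) then y a else 1) = (1 : Gr n) := by
        funext a; simp
      rw [h1, mul_one, Finset.prod_empty, one_mul]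
    | insert a S ha ih =>
      have h1 : (fun b => if b ∈ insert a S then y b else 1) =
          (fun b => if b ∈ S then y b else 1) * (Pi.mulSingle a (y a) : Gr n) := by
        funext b
        rw [Pi.mul_apply]
        by_cases hb : b = a
        · subst hb
          rw [Pi.mulSingle_eq_same]
          simp [ha]
        · rw [Pi.mulSingle_eq_of_ne hb, mul_one]
          simp [hb]
      have h2 := congrFun (alt_one (h a) _ (y a) le_rfl (hy a))
        (w * fun b => if b ∈ S then y b else 1)
      rw [rho_apply, Pi.smul_apply, ih, smul_eq_mul] at h2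
      rw [h1, ← mul_assoc, h2, Finset.prod_insert ha]
      ring
  have h1 := key Finset.univ
  have h2 : (fun a => if a ∈ (Finset.univ : Finset Λ) then y a else 1) = y := by
    funext a; simp
  rw [h2] at h1
  rw [h1]
  congr 1
  unfold sg
  push_cast
  rfl

omit [DecidableEq Λ] in
theorem sg_mul [Fintype Λ] (x y : Gr n) : sg (x * y) = sg x * sg y := by
  unfold sg
  rw [← Finset.prod_mul_distrib]
  refine Finset.prod_congr rfl fun a _ => ?_
  rw [Pi.mul_apply, Perm.sign_mul]
  simp

omit [DecidableEq Λ] in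
theorem sg_inv [Fintype Λ] (x : Gr n) : sg x⁻¹ = sg x := by
  unfold sg
  refine Finset.prod_congr rfl fun a _ => ?_
  rw [Pi.inv_apply, Perm.sign_inv]

omit [DecidableEq Λ] in
theorem sg_sq [Fintype Λ] (x : Gr n) : sg x * sg x = 1 := by
  unfold sg
  rw [← Finset.prod_mul_distrib]
  refine Finset.prod_eq_one fun a _ => ?_
  rw [← Units.val_mul, Int.units_mul_self, Units.val_one]

/-- the operator of left translation by the element `e` of the group ring -/
noncomputable def Eop [Fintype Λ] (e : Gr n → ℤ) : (Gr n → ℚ) →ₗ[ℚ] (Gr n → ℚ) where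
  toFun f w := ∑ π, (e π : ℚ) * f (π * w)
  map_add' f g := by
    funext w
    simp only [Pi.add_apply, mul_add, Finset.sum_add_distrib]
  map_smul' r f := by
    funext w
    simp only [Pi.smul_apply, smul_eq_mul, RingHom.id_apply, Finset.mul_sum]
    refine Finset.sum_congr rfl fun π _ => ?_
    ring

theorem Eop_apply [Fintype Λ] (e : Gr n → ℤ) (f : Gr n → ℚ) (w : Gr n) :
    Eop e f w = ∑ π, (e π : ℚ) * f (π * w) := rfl

theorem Eop_mem [Fintype Λ] {ν : Λ → ℕ} (e : Gr n → ℤ) {f : Gr n → ℚ}
    (hf : f ∈ RelSub n ν) : Eop e f ∈ RelSub n ν := by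
  rw [mem_RelSub] at hf ⊢
  intro a T hT u
  simp only [Eop_apply]
  rw [Finset.sum_comm]
  refine Finset.sum_eq_zero fun π _ => ?_
  rw [← Finset.mul_sum]
  have h1 := hf a T hT (π * u)
  simp only [mul_assoc] at h1
  rw [h1, mul_zero]

theorem Eop_rho [Fintype Λ] (e : Gr n → ℤ) (f : Gr n → ℚ) (a : Λ) (τ : Perm (Fin (n a))) :
    rho n a τ (Eop e f) = Eop e (rho n a τ f) := by
  funext w
  rw [rho_apply, Eop_apply, Eop_apply]
  refine Finset.sum_congr rfl fun π _ => ?_
  rw [rho_apply, mul_assoc]

/-- an alternating function in the image of `e` is zero if `e` kills the tensors -/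
theorem alt_zero [Fintype Λ] {ν : Λ → ℕ} {e : Gr n → ℤ} (he : Kills ν e) {ψ : Gr n → ℚ}
    {c : ∀ a, Fin (n a) → ℕ} (hc : ∀ a i, c a i < ν a)
    (h : ∀ a i j, i ≠ j → c a i = c a j → rho n a (swap i j) ψ = -ψ) (g : Gr n) :
    ∑ π, (e π : ℚ) * ψ (π⁻¹ * g) = 0 := by
  classical
  let c1 : ∀ a, Fin (n a) → Fin (ν a) := fun a i => ⟨c a ((g a)⁻¹ i), hc a _⟩
  have h1 : ∑ π, (e π : ℚ) * ψ (π⁻¹ * g) = ∑ c2 : ∀ a, Fin (n a) → Fin (ν a),
      ∑ π ∈ univ.filter (fun π : Gr n => (fun a i => c1 a (π a i)) = c2),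
        (e π : ℚ) * ψ (π⁻¹ * g) := by
    rw [Finset.sum_fiberwise]
  rw [h1]
  refine Finset.sum_eq_zero fun c2 _ => ?_
  by_cases h2 : ∃ π0 : Gr n, (fun a i => c1 a (π0 a i)) = c2
  · obtain ⟨π0, h0⟩ := h2
    have h3 : ∀ π ∈ univ.filter (fun π : Gr n => (fun a i => c1 a (π a i)) = c2),
        (e π : ℚ) * ψ (π⁻¹ * g) = ((sg π * e π : ℤ) : ℚ) * ((sg π0 : ℚ) * ψ (π0⁻¹ * g)) := by
      intro π hπ
      have h4 : (fun a i => c1 a (π a i)) = c2 := (Finset.mem_filter.1 hπ).2
      have h5 : π⁻¹ * g = (π0⁻¹ * g) * (g⁻¹ * π0 * π⁻¹ * g) := by group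
      have h6 : ψ (π⁻¹ * g) = (sg (g⁻¹ * π0 * π⁻¹ * g) : ℚ) * ψ (π0⁻¹ * g) := by
        conv_lhs => rw [h5]
        refine alt_all h _ _ ?_
        intro a i
        have h7 := congrFun (congrFun (h4.trans h0.symm) a) (((π a)⁻¹) (g a i))
        have h8 := congrArg Fin.val h7
        simp only [c1] at h8
        simp only [Pi.mul_apply, Pi.inv_apply, Perm.mul_apply]
        rw [← h8]
        simp
      rw [h6, sg_mul, sg_mul, sg_mul, sg_inv, sg_inv]
      have h9 : (sg g * sg π0 * sg π * sg g : ℤ) = sg π0 * sg π := by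
        have := sg_sq g
        calc sg g * sg π0 * sg π * sg g = (sg g * sg g) * (sg π0 * sg π) := by ring
          _ = sg π0 * sg π := by rw [this, one_mul]
      rw [h9]
      push_cast
      ring
    rw [Finset.sum_congr rfl h3, ← Finset.sum_mul, ← Int.cast_sum]
    have h4 := he c1 c2
    have h5 : (univ.filter fun π : Gr n => (fun a i => c1 a (π a i)) = c2) =
        univ.filter fun π : Gr n => ∀ a i, c1 a (π a i) = c2 a i := by
      ext π
      simp only [Finset.mem_filter, Finset.mem_univ, true_and]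
      constructor
      · intro h6 a i
        exact congrFun (congrFun h6 a) i
      · intro h6
        funext a i
        exact h6 a i
    rw [h5, h4, Int.cast_zero, zero_mul]
  · rw [Finset.filter_false_of_mem, Finset.sum_empty]
    intro π _ h3
    exact h2 ⟨π, h3⟩

/-- **The core lemma.** -/
theorem core [Fintype Λ] {ν : Λ → ℕ} {e : Gr n → ℤ} (he : Kills ν e) {φ : Gr n → ℚ}
    (hφ : φ ∈ RelSub n ν) : ∑ π, (e π : ℚ) * φ π = 0 := by
  classical
  let W : Submodule ℚ (Gr n → ℚ) := (RelSub n ν).map (Eop e)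
  by_cases hne : ∃ v ∈ W, v ≠ 0
  · exfalso
    obtain ⟨c, hc, v, hv, hv0, hcv⟩ := exists_colorings W (ν := ν)
      (by
        rintro _ ⟨f, hf, rfl⟩
        exact Eop_mem e hf)
      (by
        rintro a i j _ ⟨f, hf, rfl⟩
        rw [Eop_rho]
        exact ⟨_, rho_mem hf a _, rfl⟩) hne Finset.univ
    obtain ⟨f, hf, rfl⟩ := hv
    apply hv0
    have h1 : ∑ w, Eop e f w * Eop e f w = 0 := by
      have h2 : ∀ w, Eop e f w * Eop e f w =
          ∑ π, (e π : ℚ) * (f (π * w) * Eop e f w) := by
        intro w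
        conv_lhs => rw [Eop_apply, Finset.sum_mul]
        refine Finset.sum_congr rfl fun π _ => ?_
        rw [mul_assoc]
        rfl
      rw [Finset.sum_congr rfl fun w _ => h2 w, Finset.sum_comm]
      have h3 : ∀ π : Gr n, ∑ w, (e π : ℚ) * (f (π * w) * Eop e f w) =
          ∑ g, (e π : ℚ) * (f g * Eop e f (π⁻¹ * g)) := by
        intro π
        rw [← Equiv.sum_comp (Equiv.mulLeft π)
          fun g => (e π : ℚ) * (f g * Eop e f (π⁻¹ * g))]
        refine Finset.sum_congr rfl fun w _ => ?_
        rw [Equiv.coe_mulLeft, inv_mul_cancel_left]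
      rw [Finset.sum_congr rfl fun π _ => h3 π, Finset.sum_comm]
      refine Finset.sum_eq_zero fun g _ => ?_
      have h4 := alt_zero he (fun a i => hc a (Finset.mem_univ a) i)
        (fun a i j hij h => hcv a (Finset.mem_univ a) i j hij h) g
      have h5 : ∑ π, (e π : ℚ) * (f g * Eop e f (π⁻¹ * g)) =
          f g * ∑ π, (e π : ℚ) * Eop e f (π⁻¹ * g) := by
        rw [Finset.mul_sum]
        refine Finset.sum_congr rfl fun π _ => ?_
        ring
      rw [h5, h4, mul_zero]
    funext w
    have h2 := (Finset.sum_eq_zero_iff_of_nonneg fun w _ => mul_self_nonneg (Eop e f w)).1 h1 w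
      (Finset.mem_univ w)
    exact mul_self_eq_zero.1 h2
  · push Not at hne
    have h1 : Eop e φ = 0 := hne _ ⟨φ, hφ, rfl⟩
    have h2 := congrFun h1 1
    rw [Eop_apply] at h2
    simpa only [mul_one, Pi.zero_apply] using h2

end

end Pool.Agent.J4.H20.SM
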