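import Pool.Agent.J4.H82.PV.R
import Pool.Agent.J4.H20.SM.Core

/-!
# Functionals on the zero-cycles of products of powers of curves and the core lemma
-/

set_option autoImplicit false

open FF IntermediateField Equiv Pool.Agent.J4.H17.ZC Pool.Agent.J4.H27.BB Pool.Agent.J4.H82.PV

namespace Pool.Agent.J4.H20.SM

section extP

variable {ι : Type} [Fintype ι] [dι : DecidableEq ι] {A : ι → Type}

/-- The exterior product of the zero-cycles `a i` on `A i`, a zero-cycle on the product of the
`A i`: the coefficient of the point `x` is the product of the coefficients of the `x i` in `a i`. -/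
noncomputable def extP (a : ∀ i, A i →₀ ℤ) : (∀ i, A i) →₀ ℤ :=
  Finsupp.onFinset (Fintype.piFinset fun i => (a i).support) (fun x => ∏ i, a i (x i)) (by
    intro x hx
    rw [Fintype.mem_piFinset]
    intro i
    rw [Finsupp.mem_support_iff]
    intro h
    exact hx (Finset.prod_eq_zero (Finset.mem_univ i) h))

theorem extP_apply (a : ∀ i, A i →₀ ℤ) (x : ∀ i, A i) : extP a x = ∏ i, a i (x i) := rfl

theorem extP_single (x : ∀ i, A i) :
    extP (fun i => Finsupp.single (x i) (1 : ℤ)) = Finsupp.single x 1 := by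
  classical
  ext y
  rw [extP_apply, Finsupp.single_apply]
  split_ifs with h
  · subst h; simp
  · obtain ⟨i, hi⟩ := Function.ne_iff.1 h
    refine Finset.prod_eq_zero (Finset.mem_univ i) ?_
    rw [Finsupp.single_eq_of_ne (Ne.symm hi)]

variable (A) in
/-- the exterior product as a multilinear map -/
noncomputable def extPM : MultilinearMap ℤ (fun i : ι => A i →₀ ℤ) ((∀ i, A i) →₀ ℤ) where
  toFun := extP
  map_update_add' := by
    intro inst m i x y
    have hinst : inst = dι := Subsingleton.elim _ _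
    subst hinst
    ext z
    rw [Finsupp.add_apply, extP_apply, extP_apply, extP_apply]
    have h : ∀ w : A i →₀ ℤ, ∏ j, (Function.update m i w) j (z j) =
        w (z i) * ∏ j ∈ Finset.univ.erase i, m j (z j) := by
      intro w
      rw [← Finset.mul_prod_erase _ _ (Finset.mem_univ i), Function.update_self]
      congr 1
      refine Finset.prod_congr rfl fun j hj => ?_
      rw [Function.update_of_ne (Finset.ne_of_mem_erase hj)]
    rw [h, h, h, Finsupp.add_apply, add_mul]
  map_update_smul' := by
    intro inst m i c x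
    have hinst : inst = dι := Subsingleton.elim _ _
    subst hinst
    ext z
    rw [Finsupp.smul_apply, extP_apply, extP_apply]
    have h : ∀ w : A i →₀ ℤ, ∏ j, (Function.update m i w) j (z j) =
        w (z i) * ∏ j ∈ Finset.univ.erase i, m j (z j) := by
      intro w
      rw [← Finset.mul_prod_erase _ _ (Finset.mem_univ i), Function.update_self]
      congr 1
      refine Finset.prod_congr rfl fun j hj => ?_
      rw [Function.update_of_ne (Finset.ne_of_mem_erase hj)]
    rw [h, h, Finsupp.smul_apply, smul_eq_mul, smul_eq_mul, mul_assoc]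

theorem extPM_apply (a : ∀ i, A i →₀ ℤ) : extPM A a = extP a := rfl

end extP

section perm

variable {Λ : Type} [Fintype Λ] [DecidableEq Λ] {n : Λ → ℕ} {A : Λ → Type}

/-- the permutation of the coordinates -/
def permP (A : Λ → Type) (π : Gr n) (x : ∀ s : Σ a, Fin (n a), A s.1) :
    ∀ s : Σ a, Fin (n a), A s.1 := fun s => x ⟨s.1, π s.1 s.2⟩

omit [Fintype Λ] [DecidableEq Λ] in
theorem permP_inj (π : Gr n) : Function.Injective (permP A π) := by
  intro x y h
  funext ⟨a, i⟩
  have h1 := congrFun h ⟨a, (π a)⁻¹ i⟩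
  simp only [permP] at h1
  have h2 : π a ((π a)⁻¹ i) = i := by simp
  rw [h2] at h1
  exact h1

theorem extP_perm (π : Gr n) (D : ∀ s : Σ a, Fin (n a), A s.1 →₀ ℤ) :
    extP (fun s : Σ a, Fin (n a) => (D ⟨s.1, π s.1 s.2⟩ : A s.1 →₀ ℤ)) =
      Finsupp.mapDomain (permP A π) (extP D) := by
  ext y
  have hy : y = permP A π (permP A π⁻¹ y) := by
    funext ⟨a, i⟩
    simp only [permP]
    have h2 : (π⁻¹ : Gr n) a (π a i) = i := by
      rw [Pi.inv_apply]; simp
    rw [h2]
  have h1 : Finsupp.mapDomain (permP A π) (extP D) y = extP D (permP A π⁻¹ y) := by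
    conv_lhs => rw [hy]
    exact Finsupp.mapDomain_apply (permP_inj π) _ _
  rw [h1, extP_apply, extP_apply]
  refine Fintype.prod_equiv (Equiv.sigmaCongrRight π) _ _ ?_
  rintro ⟨a, i⟩
  change (D ⟨a, π a i⟩) (y ⟨a, i⟩) = (D ⟨a, π a i⟩) (y ⟨a, (π⁻¹ : Gr n) a (π a i)⟩)
  have h2 : (π⁻¹ : Gr n) a (π a i) = i := by
    rw [Pi.inv_apply]; simp
  rw [h2]

/-- fixed coordinates outside of the block `a` -/
def ins (a : Λ) (y : ∀ b, Fin (n b) → A b) (v : Fin (n a) → A a) :
    ∀ s : Σ b, Fin (n b), A s.1 := fun s => Function.update y a v s.1 s.2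

omit [Fintype Λ] in
theorem ins_inj (a : Λ) (y : ∀ b, Fin (n b) → A b) : Function.Injective (ins a y) := by
  intro v w h
  funext i
  have h1 := congrFun h ⟨a, i⟩
  simp only [ins, Function.update_self] at h1
  exact h1

theorem extP_ins (a : Λ) (y : ∀ b, Fin (n b) → A b) (E : Fin (n a) → A a →₀ ℤ) :
    extP (fun s : Σ b, Fin (n b) =>
      Function.update (fun b (i : Fin (n b)) => Finsupp.single (y b i) (1 : ℤ)) a E s.1 s.2) =
      Finsupp.mapDomain (ins a y) (extG E) := by
  classical
  ext z
  rw [extP_apply]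
  by_cases hz : ∀ b, b ≠ a → ∀ i, z ⟨b, i⟩ = y b i
  · have h1 : z = ins a y (fun i => z ⟨a, i⟩) := by
      funext ⟨b, i⟩
      simp only [ins]
      by_cases hb : b = a
      · subst hb
        rw [Function.update_self]
      · rw [Function.update_of_ne hb, hz b hb]
    have h2 : Finsupp.mapDomain (ins a y) (extG E) z = extG E (fun i => z ⟨a, i⟩) := by
      conv_lhs => rw [h1]
      exact Finsupp.mapDomain_apply (ins_inj a y) _ _
    rw [h2, extG_apply, Fintype.prod_sigma, ← Finset.mul_prod_erase _ _ (Finset.mem_univ a)]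
    rw [Finset.prod_eq_one (s := Finset.univ.erase a), mul_one]
    · refine Finset.prod_congr rfl fun i _ => ?_
      simp only [Function.update_self]
    · intro b hb
      refine Finset.prod_eq_one fun i _ => ?_
      have hba := Finset.ne_of_mem_erase hb
      simp only [Function.update_of_ne hba]
      rw [hz b hba, Finsupp.single_eq_same]
  · push Not at hz
    obtain ⟨b, hb, i, hi⟩ := hz
    rw [Finset.prod_eq_zero (Finset.mem_univ (⟨b, i⟩ : Σ b, Fin (n b)))]
    · symm
      refine Finsupp.mapDomain_of_notMem_range _ _ ?_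
      rintro ⟨v, rfl⟩
      apply hi
      simp only [ins, Function.update_of_ne hb]
    · simp only [Function.update_of_ne hb]
      exact Finsupp.single_eq_of_ne hi

end perm

section block

variable {k : Type} [Field k] [CharZero k] {Λ : Type} [Fintype Λ] [DecidableEq Λ] {n : Λ → ℕ}
  {K : Λ → Type} [∀ a, Field (K a)] [∀ a, Algebra k (K a)]

/-- the product of the powers of the curves -/
abbrev powers (k : Type) [Field k] {Λ : Type} (K : Λ → Type) [∀ a, Field (K a)]
    [∀ a, Algebra k (K a)] (n : Λ → ℕ) : Var k :=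
  varPi fun s : Σ a, Fin (n a) => curve k (K s.1)

omit [Fintype Λ] in
theorem ins_reg (a : Λ) (y : ∀ b, Fin (n b) → Place k (K b)) :
    Reg (X := (curve k (K a)).pow (Fin (n a))) (Y := powers k K n)
      (ins (A := fun b => Place k (K b)) a y) := by
  rintro L _ _ x hx ⟨b, i⟩
  by_cases hb : b = a
  · subst hb
    have h1 : (fun P => ins (A := fun b => Place k (K b)) b y (x P) ⟨b, i⟩) =
        fun P => x P i := by
      funext P
      simp only [ins, Function.update_self]
    change (curve k (K b)).IsMor L (fun P => ins (A := fun b => Place k (K b)) b y (x P) ⟨b, i⟩)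
    rw [h1]
    exact hx i
  · have h1 : (fun P => ins (A := fun b => Place k (K b)) a y (x P) ⟨b, i⟩) =
        fun _ => y b i := by
      funext P
      simp only [ins, Function.update_of_ne hb]
    change (curve k (K b)).IsMor L (fun P => ins (A := fun b => Place k (K b)) a y (x P) ⟨b, i⟩)
    rw [h1]
    exact curve_const (K b) L _

/-- The values of a functional at the permuted exterior products are in `RelSub`. -/
theorem mem_rel {ν : Λ → ℕ} (e : ∀ a, Place k (K a) → (Place k (K a) →₀ ℤ))
    (hv : ∀ a, Van k (e a) (ν a)) (l : ((powers k K n).Pt →₀ ℤ) →+ ℚ)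
    (hl : ∀ r ∈ RatEq (powers k K n), l r = 0) (x : ∀ a, Fin (n a) → Place k (K a)) :
    (fun π : Gr n => l (extP fun s : Σ a, Fin (n a) => e s.1 (x s.1 (π s.1 s.2)))) ∈
      RelSub n ν := by
  classical
  rw [mem_RelSub]
  intro a T hT u
  let D : ∀ s : Σ a, Fin (n a), Place k (K s.1) →₀ ℤ := fun s => e s.1 (x s.1 (u s.1 s.2))
  let f : Perm (Fin (n a)) → MultilinearMap ℤ
      (fun s : Σ a, Fin (n a) => Place k (K s.1) →₀ ℤ) ℚ := fun τ =>
    (l.comp (Finsupp.mapDomain.addMonoidHom
      (permP (fun a => Place k (K a)) (Pi.mulSingle a τ)))).toIntLinearMap.compMultilinearMap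
        (extPM fun s : Σ a, Fin (n a) => Place k (K s.1))
  have hf : ∀ (τ : Perm (Fin (n a))) (d : ∀ s : Σ a, Fin (n a), Place k (K s.1) →₀ ℤ),
      f τ d = l (extP fun s : Σ a, Fin (n a) =>
        (d ⟨s.1, (Pi.mulSingle a τ : Gr n) s.1 s.2⟩ : Place k (K s.1) →₀ ℤ)) := by
    intro τ d
    exact congrArg l (extP_perm (A := fun a => Place k (K a)) (Pi.mulSingle a τ) d).symm
  let Λ' : MultilinearMap ℤ (fun s : Σ a, Fin (n a) => Place k (K s.1) →₀ ℤ) ℚ :=
    ∑ τ ∈ PT T, f τ
  have hΛ : ∀ d, Λ' d = ∑ τ ∈ PT T, f τ d := by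
    intro d
    simp only [Λ', sum_apply]
  have h1 : Λ' D = 0 := by
    refine multi_closure Λ' (fun s => {w | ∃ x, w = Finsupp.single x 1})
      (Finset.univ.filter fun s : Σ a, Fin (n a) => s.1 ≠ a) D (fun i _ => closure_single _) ?_
    intro d hd hd'
    rw [hΛ]
    by_cases hne : ∀ b : Λ, 0 < n b → Nonempty (Place k (K b))
    · have h2 : ∀ (b : Λ) (i : Fin (n b)), ∃ y : Place k (K b), b ≠ a →
          d ⟨b, i⟩ = Finsupp.single y 1 := by
        intro b i
        by_cases hb : b = a
        · obtain ⟨y⟩ := hne b (Fin.pos i)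
          exact ⟨y, fun h => absurd hb h⟩
        · obtain ⟨y, hy⟩ := hd' ⟨b, i⟩ (Finset.mem_filter.2 ⟨Finset.mem_univ _, hb⟩)
          exact ⟨y, fun _ => hy⟩
      choose y hy using h2
      have h3 := van_multi (hv a) T hT (fun i => x a (u a i))
        (l.comp (Finsupp.mapDomain.addMonoidHom (ins (A := fun b => Place k (K b)) a y)))
        (fun r hr => hl _ ((ins_reg a y).push hr)) (fun i => e a (x a (u a i)))
      rw [← h3]
      refine Finset.sum_congr rfl fun τ hτ => ?_
      rw [mem_PT] at hτ
      rw [hf]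
      change _ = l (Finsupp.mapDomain (ins (A := fun b => Place k (K b)) a y) (extG _))
      rw [← extP_ins]
      congr 2
      funext ⟨b, i⟩
      by_cases hb : b = a
      · subst hb
        have h5 : (Pi.mulSingle b τ : Gr n) b = τ :=
          Pi.mulSingle_eq_same (M := fun a => Perm (Fin (n a))) b τ
        simp only [Function.update_self]
        rw [h5, hd ⟨b, τ i⟩ (by simp)]
        by_cases hi : i ∈ T
        · rw [if_pos hi]
        · rw [if_neg hi, hτ i hi]
      · simp only [Function.update_of_ne hb]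
        rw [Pi.mulSingle_eq_of_ne hb]
        exact hy b i hb
    · push Not at hne
      obtain ⟨b, hb, hb'⟩ := hne
      refine Finset.sum_eq_zero fun τ _ => ?_
      rw [hf]
      have h2 : ∀ z : (powers k K n).Pt →₀ ℤ, z = 0 := by
        intro z
        ext w
        exact (hb'.false (w ⟨b, ⟨0, hb⟩⟩)).elim
      rw [h2 (extP _), map_zero]
  rw [hΛ] at h1
  rw [← h1]
  refine Finset.sum_congr rfl fun τ _ => ?_
  rw [hf]
  rfl

/-- The vanishing for the exterior products of arbitrary cycles in the images of the operators. -/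
theorem master {ν : Λ → ℕ} (e : ∀ a, Place k (K a) → (Place k (K a) →₀ ℤ))
    (hv : ∀ a, Van k (e a) (ν a)) {c : Gr n → ℤ} (hc : Kills ν c)
    (l : ((powers k K n).Pt →₀ ℤ) →+ ℚ) (hl : ∀ r ∈ RatEq (powers k K n), l r = 0)
    (D : ∀ a, Fin (n a) → (Place k (K a) →₀ ℤ)) :
    ∑ π : Gr n, (c π : ℚ) * l (extP fun s : Σ a, Fin (n a) =>
      Finsupp.linearCombination ℤ (e s.1) (D s.1 (π s.1 s.2))) = 0 := by
  classical
  let f : Gr n → MultilinearMap ℤ (fun s : Σ a, Fin (n a) => Place k (K s.1) →₀ ℤ) ℚ := fun π =>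
    ((l.comp (Finsupp.mapDomain.addMonoidHom
      (permP (fun a => Place k (K a)) π))).toIntLinearMap.compMultilinearMap
        (extPM fun s : Σ a, Fin (n a) => Place k (K s.1))).compLinearMap
          fun s => Finsupp.linearCombination ℤ (e s.1)
  have hf : ∀ (π : Gr n) (d : ∀ s : Σ a, Fin (n a), Place k (K s.1) →₀ ℤ),
      f π d = l (extP fun s : Σ a, Fin (n a) =>
        (Finsupp.linearCombination ℤ (e s.1) (d ⟨s.1, π s.1 s.2⟩) : Place k (K s.1) →₀ ℤ)) := by
    intro π d
    exact congrArg l (extP_perm (A := fun a => Place k (K a)) π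
      fun s => Finsupp.linearCombination ℤ (e s.1) (d s)).symm
  have h0 : (∑ π : Gr n, c π • f π) = 0 := by
    refine Module.Basis.ext_multilinear (fun _ => Finsupp.basisSingleOne) ?_
    intro x
    rw [sum_apply]
    simp only [smul_apply, zero_apply, hf,
      Finsupp.coe_basisSingleOne, Finsupp.linearCombination_single, one_smul, zsmul_eq_mul]
    exact core hc (mem_rel e hv l hl fun a i => x ⟨a, i⟩)
  have h1 := congrArg (fun g : MultilinearMap ℤ
    (fun s : Σ a, Fin (n a) => Place k (K s.1) →₀ ℤ) ℚ => g fun s => D s.1 s.2) h0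
  simp only [sum_apply, smul_apply, zero_apply, hf,
    zsmul_eq_mul] at h1
  exact h1

end block

end Pool.Agent.J4.H20.SM
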